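import Pool.Agent.Q114.KC.Star

/-!
Graphs with exactly `(2k-1) m` edges on `kp - 1 + m` vertices, of maximum degree at most `2k - 2`:
the equality case of theorem `star`.
-/

set_option autoImplicit false
set_option linter.unusedSectionVars false

namespace Pool.Agent.Q126.KE

open Finset Q127.HS Q114.KC

variable {V : Type*} [DecidableEq V]

/-- The main step with one more vertex, for `r ≥ 3`. -/
theorem stuck3 (H : SimpleGraph V) (U : Finset V) (p r : ℕ) (hr : 3 ≤ r)
    (hΔ : ∀ v ∈ U, dg H U v + 1 ≤ r) (hM : ∃ M, MaxInd H U M ∧ M.card < p)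
    (hN : ∃ N ⊆ U, Ind H N ∧ p ≤ N.card) :
    ∃ I ⊆ U, Ind H I ∧ I.card = p ∧
      ((U \ I).filter (fun v => dg H I v = 0)).card + U.card + 3 ≤ r * p := by
  classical
  obtain ⟨M0, hM0, hM0p⟩ := hM
  obtain ⟨M, hM, hmax⟩ := exists_max_image
    (U.powerset.filter (fun M => MaxInd H U M ∧ M.card < p)) card
    ⟨M0, mem_filter.2 ⟨mem_powerset.2 hM0.1, hM0, hM0p⟩⟩
  rw [mem_filter, mem_powerset] at hM
  obtain ⟨hMU, hM, hMp⟩ := hM
  have hcount := count_max hM hΔ
  have hrp : r * M.card + r ≤ r * p := by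
    calc r * M.card + r = r * (M.card + 1) := by ring
      _ ≤ r * p := Nat.mul_le_mul_left _ hMp
  by_cases hc : Clq H U M
  · obtain ⟨N, hNU, hNi, hNp⟩ := hN
    obtain ⟨I, hIU, hI, hIp, hsub⟩ := clique_case hM hc hNU hNi hMp.le hNp
    refine ⟨I, hIU, hI, hIp, ?_⟩
    have := card_le_card hsub
    omega
  · unfold Clq at hc
    push Not at hc
    obtain ⟨x, hx, y, hy, z, hz, hxy, hxz, hyz, hnadj⟩ := hc
    have hy' := mem_PP.1 hy
    have hz' := mem_PP.1 hz
    obtain ⟨M1, hM1⟩ : ∃ M1, M1 = insert y (insert z (M.erase x)) := ⟨_, rfl⟩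
    have hM1U : M1 ⊆ U := by
      rw [hM1]
      exact insert_subset hy'.1 (insert_subset hz'.1 ((erase_subset _ _).trans hMU))
    have hcardM1 : M1.card = M.card + 1 := by
      rw [hM1, card_insert_of_notMem, card_insert_of_notMem, card_erase_of_mem hx]
      · have : 0 < M.card := card_pos.2 ⟨x, hx⟩
        omega
      · intro h; exact hz'.2.1 (mem_of_mem_erase h)
      · rw [mem_insert]
        rintro (h | h)
        · exact hyz h
        · exact hy'.2.1 (mem_of_mem_erase h)
    have hyM : ∀ w ∈ M.erase x, ¬ H.Adj w y := fun w hw h =>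
      (mem_erase.1 hw).1 (PP_unique hy (mem_erase.1 hw).2 hx h hxy)
    have hzM : ∀ w ∈ M.erase x, ¬ H.Adj w z := fun w hw h =>
      (mem_erase.1 hw).1 (PP_unique hz (mem_erase.1 hw).2 hx h hxz)
    have hM1i : Ind H M1 := by
      rw [hM1]
      have h1 : insert y (insert z (M.erase x)) = {y} ∪ ({z} ∪ M.erase x) := by
        ext w
        simp only [mem_insert, mem_union, mem_singleton, mem_erase]
      rw [h1]
      apply Ind.union (Ind.singleton H y)
      · apply Ind.union (Ind.singleton H z) (hM.2.1.mono (erase_subset _ _))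
        intro a ha b hb hab
        rw [mem_singleton] at ha
        rw [ha] at hab
        exact hzM b hb hab.symm
      · intro a ha b hb hab
        rw [mem_singleton] at ha
        rw [ha] at hab
        rcases mem_union.1 hb with hb' | hb'
        · rw [mem_singleton] at hb'
          rw [hb'] at hab
          exact hnadj hab
        · exact hyM b hb' hab.symm
    obtain ⟨M2, hM12, hM2⟩ := exists_maxInd hM1U hM1i
    have hM2p : p ≤ M2.card := by
      by_contra hlt
      have h1 := hmax M2 (mem_filter.2 ⟨mem_powerset.2 hM2.1, hM2, by omega⟩)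
      have h2 := card_le_card hM12
      omega
    obtain ⟨I, h1I, hI2, hIi, hIp⟩ := hM2.2.1.exists_subset hM12 (by omega) hM2p
    refine ⟨I, hI2.trans hM2.1, hIi, hIp, ?_⟩
    have hyI : y ∈ I := h1I (by rw [hM1]; exact mem_insert_self _ _)
    have hzI : z ∈ I := h1I (by rw [hM1]; exact mem_insert_of_mem (mem_insert_self _ _))
    have hwI : ∀ w ∈ M, w ≠ x → w ∈ I := fun w hw hwx => h1I (by
      rw [hM1]
      exact mem_insert_of_mem (mem_insert_of_mem (mem_erase.2 ⟨hwx, hw⟩)))
    have hsub : insert y (insert z ((U \ I).filter (fun v => dg H I v = 0))) ⊆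
        U.filter (fun v => H.Adj x v) := by
      intro v hv
      rw [mem_insert, mem_insert] at hv
      rw [mem_filter]
      rcases hv with rfl | rfl | hv
      · exact ⟨hy'.1, hxy⟩
      · exact ⟨hz'.1, hxz⟩
      · obtain ⟨h1, h2⟩ := mem_filter.1 hv
        obtain ⟨hvU, hvI⟩ := mem_sdiff.1 h1
        rw [dg_zero] at h2
        refine ⟨hvU, ?_⟩
        have hvx : v ≠ x := by
          rintro rfl
          exact h2 y hyI hxy
        have hvM : v ∉ M := fun h => hvI (hwI v h hvx)
        obtain ⟨w, hw, h3⟩ := hM.2.2 v hvU hvM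
        by_cases h4 : w = x
        · rw [← h4]; exact h3
        · exact absurd h3.symm (h2 w (hwI w hw h4))
    have h1 := card_le_card hsub
    rw [card_insert_of_notMem, card_insert_of_notMem, ← dg_eq] at h1
    · have h2 := hΔ x (hMU hx)
      omega
    · intro h
      exact (mem_sdiff.1 (mem_filter.1 h).1).2 hzI
    · rw [mem_insert]
      rintro (h | h)
      · exact hyz h
      · exact (mem_sdiff.1 (mem_filter.1 h).1).2 hyI

/-- the inequality for greedy sets, with the vertex of the smallest degree -/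
theorem greedy_min (H : SimpleGraph V) (U I : Finset V) (r : ℕ) (hIU : I ⊆ U)
    (hne : I.Nonempty) (hg : GD H U I) (hΔ : ∀ v ∈ U, dg H U v + 1 ≤ r) :
    ∃ z ∈ I, (∀ x ∈ I, dg H U z ≤ dg H U x) ∧
      es H U + r * (I.card * dg H U z) ≤ r * (∑ x ∈ I, dg H U x) + U.card * dg H U z := by
  classical
  obtain ⟨z, hz, hmin⟩ := exists_min_image I (fun v => dg H U v) hne
  obtain ⟨δ, hδ⟩ : ∃ δ, δ = dg H U z := ⟨_, rfl⟩
  refine ⟨z, hz, hmin, ?_⟩
  rw [← hδ]
  have h1 : ∑ v ∈ U, (dg H U v - δ) ≤ ∑ x ∈ I, r * (dg H U x - δ) := by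
    have h2 : ∀ x ∈ I, ∑ v ∈ U, (if v = x ∨ H.Adj x v then dg H U x - δ else 0) ≤
        r * (dg H U x - δ) := by
      intro x hx
      rw [← sum_filter, sum_const, smul_eq_mul]
      apply Nat.mul_le_mul_right
      refine le_trans ?_ (hΔ x (hIU hx))
      have h3 : U.filter (fun v => v = x ∨ H.Adj x v) ⊆
          insert x (U.filter (fun v => H.Adj x v)) := by
        intro v hv
        rcases mem_filter.1 hv with ⟨h4, h5 | h5⟩
        · exact h5 ▸ mem_insert_self _ _
        · exact mem_insert_of_mem (mem_filter.2 ⟨h4, h5⟩)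
      refine (card_le_card h3).trans ((card_insert_le _ _).trans ?_)
      rw [dg_eq]
    refine le_trans ?_ (sum_le_sum h2)
    rw [sum_comm]
    apply sum_le_sum
    intro v hv
    rcases hg v hv with ⟨x, hx, h3, h4⟩ | ⟨_, h3⟩
    · refine le_trans ?_ (single_le_sum (f := fun x => if v = x ∨ H.Adj x v then
        dg H U x - δ else 0) (fun _ _ => Nat.zero_le _) hx)
      rw [if_pos h3]
      omega
    · have := h3 z hz
      rw [← hδ] at this
      rw [Nat.sub_eq_zero_of_le this]
      exact Nat.zero_le _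
  have h2 : es H U ≤ ∑ v ∈ U, (dg H U v - δ) + U.card * δ := by
    unfold es
    rw [← smul_eq_mul (U.card), ← sum_const, ← sum_add_distrib]
    exact sum_le_sum fun v _ => by omega
  have h3 : ∑ x ∈ I, dg H U x = ∑ x ∈ I, (dg H U x - δ) + I.card * δ := by
    rw [← smul_eq_mul (I.card), ← sum_const, ← sum_add_distrib]
    apply sum_congr rfl
    intro x hx
    have := hmin x hx
    omega
  rw [← mul_sum] at h1
  rw [h3, Nat.mul_add]
  linarith

/-- Equality in the greedy inequality, when the smallest degree is `0`. -/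
theorem greedy_eq (H : SimpleGraph V) (U I : Finset V) (r : ℕ) (hIU : I ⊆ U)
    (hg : GD H U I) (hΔ : ∀ v ∈ U, dg H U v + 1 ≤ r) (h0 : ∃ z ∈ I, dg H U z = 0)
    (he : r * (∑ x ∈ I, dg H U x) ≤ es H U) :
    (∀ x ∈ I, dg H U x = 0 ∨ dg H U x + 1 = r) ∧
      (∀ v ∈ U, dg H U v = 0 ∨ dg H U v + 1 = r) := by
  classical
  obtain ⟨z, hz, hz0⟩ := h0
  have hN : ∀ x ∈ I, ∑ v ∈ U, (if v = x ∨ H.Adj x v then dg H U x else 0) =
      (dg H U x + 1) * dg H U x := by
    intro x hx
    rw [← sum_filter, sum_const, smul_eq_mul]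
    congr 1
    have h3 : U.filter (fun v => v = x ∨ H.Adj x v) =
        insert x (U.filter (fun v => H.Adj x v)) := by
      ext v
      rw [mem_filter, mem_insert, mem_filter]
      constructor
      · rintro ⟨h1, h2 | h2⟩
        · exact Or.inl h2
        · exact Or.inr ⟨h1, h2⟩
      · rintro (h1 | ⟨h1, h2⟩)
        · exact ⟨h1 ▸ hIU hx, Or.inl h1⟩
        · exact ⟨h1, Or.inr h2⟩
    rw [h3, card_insert_of_notMem, ← dg_eq]
    rw [mem_filter]
    exact fun h => H.irrefl h.2
  have hA : ∀ v ∈ U, dg H U v ≤ ∑ x ∈ I, (if v = x ∨ H.Adj x v then dg H U x else 0) := by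
    intro v hv
    rcases hg v hv with ⟨x, hx, h3, h4⟩ | ⟨_, h3⟩
    · refine le_trans ?_ (single_le_sum (f := fun x => if v = x ∨ H.Adj x v then
        dg H U x else 0) (fun _ _ => Nat.zero_le _) hx)
      rw [if_pos h3]
      exact h4
    · have := h3 z hz
      rw [hz0] at this
      rw [Nat.le_zero.1 this]
      exact Nat.zero_le _
  have hB : ∀ x ∈ I, (dg H U x + 1) * dg H U x ≤ r * dg H U x := fun x hx =>
    Nat.mul_le_mul_right _ (hΔ x (hIU hx))
  have h1 : es H U ≤ ∑ v ∈ U, ∑ x ∈ I, (if v = x ∨ H.Adj x v then dg H U x else 0) :=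
    sum_le_sum hA
  have h2 : ∑ v ∈ U, ∑ x ∈ I, (if v = x ∨ H.Adj x v then dg H U x else 0) =
      ∑ x ∈ I, (dg H U x + 1) * dg H U x := by
    rw [sum_comm]
    exact sum_congr rfl hN
  have h3 : ∑ x ∈ I, (dg H U x + 1) * dg H U x ≤ ∑ x ∈ I, r * dg H U x := sum_le_sum hB
  rw [mul_sum] at he
  have e1 := (sum_eq_sum_iff_of_le hA).1 (by unfold es at h1 he; omega)
  have e2 := (sum_eq_sum_iff_of_le hB).1 (by omega)
  have hI : ∀ x ∈ I, dg H U x = 0 ∨ dg H U x + 1 = r := by
    intro x hx
    rcases Nat.eq_zero_or_pos (dg H U x) with h | h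
    · exact Or.inl h
    · exact Or.inr (Nat.eq_of_mul_eq_mul_right h (e2 x hx))
  refine ⟨hI, ?_⟩
  intro v hv
  rcases Nat.eq_zero_or_pos (dg H U v) with h | h
  · exact Or.inl h
  · right
    rcases hg v hv with ⟨x, hx, h3, h4⟩ | ⟨_, h3⟩
    · have h5 := e1 v hv
      have h6 : dg H U x ≤ ∑ x ∈ I, (if v = x ∨ H.Adj x v then dg H U x else 0) := by
        refine le_trans ?_ (single_le_sum (f := fun x => if v = x ∨ H.Adj x v then
          dg H U x else 0) (fun _ _ => Nat.zero_le _) hx)
        rw [if_pos h3]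
      rcases hI x hx with h7 | h7
      · omega
      · have := hΔ v hv
        omega
    · have := h3 z hz
      omega

/-- adding isolated vertices to a packing -/
theorem pack_add {H : SimpleGraph V} {A Z : Finset V} {K t s : ℕ} (h : Pack H A K t)
    (hd : Disjoint A Z) (hz : ∀ z ∈ Z, ∀ w ∈ A ∪ Z, ¬ H.Adj z w) (hc : K * s ≤ Z.card) :
    Pack H (A ∪ Z) K (t + s) := by
  classical
  obtain ⟨F, h1, h2⟩ := h
  have hcard : Fintype.card (Fin K × Fin s) ≤ Fintype.card Z := by
    simpa using hc
  obtain ⟨e⟩ := Function.Embedding.nonempty_of_card_le hcard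
  have hinj : ∀ i, Function.Injective fun a : Fin s => (e (i, a) : V) := by
    intro i a b hab
    have h3 := e.injective (Subtype.ext hab)
    exact (Prod.ext_iff.1 h3).2
  have hmem : ∀ i v, v ∈ univ.image (fun a : Fin s => (e (i, a) : V)) → v ∈ Z := by
    intro i v hv
    obtain ⟨a, _, rfl⟩ := mem_image.1 hv
    exact (e (i, a)).2
  refine ⟨fun i => F i ∪ univ.image (fun a : Fin s => (e (i, a) : V)), ?_, ?_⟩
  · intro i
    refine ⟨?_, ?_, ?_⟩
    · apply union_subset ((h1 i).1.trans subset_union_left)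
      intro v hv
      exact mem_union_right _ (hmem i v hv)
    · rw [card_union_of_disjoint, (h1 i).2.1, card_image_of_injective _ (hinj i), card_univ,
        Fintype.card_fin]
      rw [disjoint_left]
      intro v hv hv'
      exact (disjoint_left.1 hd) ((h1 i).1 hv) (hmem i v hv')
    · apply Ind.union (h1 i).2.2
      · intro a ha b hb
        exact hz a (hmem i a ha) b (mem_union_right _ (hmem i b hb))
      · intro a ha b hb hab
        exact hz b (hmem i b hb) a (mem_union_left _ ((h1 i).1 ha)) hab.symm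
  · intro i j hij
    dsimp only
    rw [disjoint_union_left, disjoint_union_right, disjoint_union_right]
    refine ⟨⟨h2 i j hij, ?_⟩, ?_, ?_⟩
    · rw [disjoint_left]
      intro v hv hv'
      exact (disjoint_left.1 hd) ((h1 i).1 hv) (hmem j v hv')
    · rw [disjoint_left]
      intro v hv hv'
      exact (disjoint_left.1 hd) ((h1 j).1 hv') (hmem i v hv)
    · rw [disjoint_left]
      intro v hv hv'
      obtain ⟨a, _, ha⟩ := mem_image.1 hv
      obtain ⟨b, _, hb⟩ := mem_image.1 hv'
      have h3 := e.injective (Subtype.ext (ha.trans hb.symm))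
      exact hij (Prod.ext_iff.1 h3).1

end Pool.Agent.Q126.KE
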