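import Pool.Agent.Q126.KE.Eq

/-!
The equality case of theorem `star` for graphs of maximum degree at most `2k - 2`.
-/

set_option autoImplicit false
set_option linter.unusedSectionVars false

namespace Pool.Agent.Q126.KE

open Finset Q127.HS Q114.KC

variable {V : Type*} [DecidableEq V]

/-- Either an independent set of size `p` meets more than `2m` edges, or all vertices which are not
isolated have degree `r - 1`, and `2m` is a multiple of `r - 1`. -/
theorem heavy_eq (H : SimpleGraph V) (U : Finset V) (k p m r : ℕ) (hr : r + 1 = 2 * k)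
    (hk : 2 ≤ k) (hn : U.card + 1 = k * p + m) (hp : 1 ≤ p) (hm : 1 ≤ m)
    (hrp : U.card + 2 ≤ r * p)
    (hΔ : ∀ v ∈ U, dg H U v + 1 ≤ r) (he : es H U = 2 * r * m) :
    (∃ I ⊆ U, Ind H I ∧ I.card = p ∧ es H (U \ I) < 2 * (r - 2) * m) ∨
    ((∀ v ∈ U, dg H U v = 0 ∨ dg H U v + 1 = r) ∧ ∃ t, 2 * m = t * (r - 1)) := by
  classical
  have hr3 : 3 ≤ r := by omega
  obtain ⟨q, rfl⟩ : ∃ q, r = q + 2 := ⟨r - 2, by omega⟩
  have hq : 1 ≤ q := by omega
  simp only [Nat.add_sub_cancel]
  have hkp : 2 * (k * p) = (q + 3) * p := by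
    rw [← mul_assoc, ← hr]
  by_cases hst : ∃ M, MaxInd H U M ∧ M.card < p
  · left
    have hUle : U.card + (q + 2) ≤ (q + 2) * p := by
      obtain ⟨M, hM, hMp⟩ := hst
      have h1 := count_max hM hΔ
      calc U.card + (q + 2) ≤ (q + 2) * M.card + (q + 2) := by omega
        _ = (q + 2) * (M.card + 1) := by ring
        _ ≤ _ := Nat.mul_le_mul_left _ hMp
    have hN : ∃ N ⊆ U, Ind H N ∧ p ≤ N.card := by
      obtain ⟨S, hS, hi, h1⟩ := turan_lin H (q + 1) U.card U rfl
      refine ⟨S, hS, hi, ?_⟩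
      by_contra hlt
      have hlt' : S.card + 1 ≤ p := by omega
      have h2 : (q + 1) * (q + 1 + 1) * S.card + (q + 1) * (q + 2) ≤ (q + 1) * (q + 2) * p := by
        calc (q + 1) * (q + 1 + 1) * S.card + (q + 1) * (q + 2)
            = (q + 1) * (q + 2) * (S.card + 1) := by ring
          _ ≤ _ := Nat.mul_le_mul_left _ hlt'
      have h3 : 2 * (q + 2) * m + (q + 2) * (2 * (k * p)) = 2 * (q + 2) * U.card + 2 * (q + 2) := by
        calc 2 * (q + 2) * m + (q + 2) * (2 * (k * p)) = 2 * (q + 2) * (k * p + m) := by ring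
          _ = 2 * (q + 2) * (U.card + 1) := by rw [hn]
          _ = _ := by ring
      rw [hkp] at h3
      nlinarith
    obtain ⟨I, hIU, hI, hIp, hz⟩ := stuck3 H U p (q + 2) (by omega) hΔ hst hN
    refine ⟨I, hIU, hI, hIp, ?_⟩
    have h1 := es_sdiff hIU hI
    have h2 := degsum_ge hIU hI
    have h3 : ((U \ I).filter (fun v => 1 ≤ dg H I v)).card +
        ((U \ I).filter (fun v => dg H I v = 0)).card = (U \ I).card := by
      rw [← card_filter_add_card_filter_not (s := U \ I) (fun v => 1 ≤ dg H I v)]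
      congr 2
      ext v
      simp
    have h4 := card_sdiff_add_card_eq_card hIU
    have h5 : 2 * m + 1 ≤ ∑ x ∈ I, dg H U x := by
      have h6 : (q + 3) * p = (q + 2) * p + p := by ring
      omega
    have h7 : 2 * (q + 2) * m = 2 * q * m + 4 * m := by ring
    omega
  · obtain ⟨I, hIU, hI, hIp, hg⟩ := greedy H U p hst p le_rfl
    have hIne : I.Nonempty := card_pos.1 (by omega)
    have h2 := es_sdiff hIU hI
    by_cases hD : 2 * m < ∑ x ∈ I, dg H U x
    · left
      refine ⟨I, hIU, hI, hIp, ?_⟩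
      have h7 : 2 * (q + 2) * m = 2 * q * m + 4 * m := by ring
      omega
    · right
      push Not at hD
      obtain ⟨z, hz, hmin, h1⟩ := greedy_min H U I (q + 2) hIU hIne hg hΔ
      rw [hIp] at h1
      obtain ⟨D, hD'⟩ : ∃ D, D = ∑ x ∈ I, dg H U x := ⟨_, rfl⟩
      rw [← hD'] at h1 hD
      have hz0 : dg H U z = 0 := by
        rcases Nat.eq_zero_or_pos (dg H U z) with h | h
        · exact h
        · exfalso
          obtain ⟨δ, hδ⟩ : ∃ δ, δ = dg H U z := ⟨_, rfl⟩
          rw [← hδ] at h1 h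
          have h3 : (q + 2) * (p * δ) = (q + 2) * p * δ := by ring
          have h4 : (U.card + 2) * δ ≤ (q + 2) * p * δ := Nat.mul_le_mul_right _ hrp
          have h5 : (q + 2) * D ≤ (q + 2) * (2 * m) := Nat.mul_le_mul_left _ hD
          have h6 : 2 * (q + 2) * m = (q + 2) * (2 * m) := by ring
          have h8 : (U.card + 2) * δ = U.card * δ + 2 * δ := by ring
          omega
      rw [hz0, mul_zero, mul_zero, mul_zero, add_zero, add_zero] at h1
      have hDeq : D = 2 * m := by
        have h6 : 2 * (q + 2) * m = (q + 2) * (2 * m) := by ring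
        have h7 : (q + 2) * (2 * m) ≤ (q + 2) * D := by omega
        have := Nat.le_of_mul_le_mul_left h7 (by omega)
        omega
      have h8 := greedy_eq H U I (q + 2) hIU hg hΔ ⟨z, hz, hz0⟩ (by
        rw [← hD', hDeq, he]
        exact le_of_eq (by ring))
      refine ⟨h8.2, (I.filter fun x => dg H U x + 1 = q + 2).card, ?_⟩
      rw [← hDeq, hD']
      have h9 : ∑ x ∈ I, dg H U x = ∑ x ∈ I, (if dg H U x + 1 = q + 2 then (q + 1) else 0) := by
        apply sum_congr rfl
        intro x hx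
        split_ifs with h
        · omega
        · rcases h8.1 x hx with h10 | h10
          · exact h10
          · exact absurd h10 h
      rw [h9, ← sum_filter, sum_const, smul_eq_mul]
      rfl

/-- **Equality case.** `n + 1 = kp + m`, at most `(2k-1) m` edges, degrees at most `2k-2` and
`n ≤ (2k-1) p - 2`: there are `k` disjoint independent sets of size `p`, or the graph is the union
of `t` disjoint complete graphs on `2k - 1` vertices and isolated vertices, and `m = (k-1) t`. -/
theorem main (H : SimpleGraph V) (U : Finset V) (k p m : ℕ) (hk : 2 ≤ k) (hp : 1 ≤ p)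
    (hn : U.card + 1 = k * p + m) (hrp : U.card + 2 ≤ (2 * k - 1) * p)
    (hΔ : ∀ v ∈ U, dg H U v ≤ 2 * k - 2) (he : es H U ≤ 2 * (2 * k - 1) * m) (hm : 1 ≤ m) :
    Pack H U k p ∨ (es H U = 2 * (2 * k - 1) * m ∧
      ∃ t, m = (k - 1) * t ∧ (U.filter fun v => 1 ≤ dg H U v).card = (2 * k - 1) * t ∧
      (∀ v ∈ U, dg H U v = 0 ∨ dg H U v + 1 = 2 * k - 1) ∧
      ∀ x ∈ U, ∀ y ∈ U, ∀ z ∈ U, H.Adj x y → H.Adj x z → y ≠ z → H.Adj y z) := by
  classical
  rcases lt_or_eq_of_le he with he | he
  · exact Or.inl (star H k p m U.card U rfl hn he)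
  obtain ⟨K, rfl⟩ : ∃ K, k = K + 1 := ⟨k - 1, by omega⟩
  have hK : 1 ≤ K := by omega
  have e1 : 2 * (K + 1) - 1 = 2 * K + 1 := by omega
  rw [e1] at hrp he ⊢
  have hΔ' : ∀ v ∈ U, dg H U v + 1 ≤ 2 * K + 1 := fun v hv => by have := hΔ v hv; omega
  rcases heavy_eq H U (K + 1) p m (2 * K + 1) (by ring) hk hn hp hm hrp hΔ' he with
    ⟨I, hIU, hI, hIp, hIe⟩ | ⟨hdeg, t, ht⟩
  · left
    apply Pack.succ hIU hIp hI
    have h1 := card_sdiff_add_card_eq_card hIU
    apply star H K p m (U \ I).card (U \ I) rfl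
    · have : (K + 1) * p = K * p + p := by ring
      omega
    · have : 2 * K + 1 - 2 = 2 * K - 1 := by omega
      rw [← this]; exact hIe
  have hmt : m = K * t := by
    have h1 : t * (2 * K + 1 - 1) = 2 * (K * t) := by
      rw [Nat.add_sub_cancel]; ring
    rw [h1] at ht
    omega
  have ht1 : 1 ≤ t := by
    rcases Nat.eq_zero_or_pos t with h | h
    · rw [h, mul_zero] at hmt; omega
    · exact h
  obtain ⟨W, hW⟩ : ∃ W, W = U.filter fun v => 1 ≤ dg H U v := ⟨_, rfl⟩
  have hWU : W ⊆ U := hW ▸ filter_subset _ _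
  have hmemW : ∀ v, v ∈ W ↔ v ∈ U ∧ 1 ≤ dg H U v := fun v => by rw [hW, mem_filter]
  have hdW : ∀ v ∈ W, dg H U v = 2 * K := by
    intro v hv
    have h1 := (hmemW v).1 hv
    rcases hdeg v h1.1 with h2 | h2 <;> omega
  have hdW' : ∀ v ∈ U, dg H W v = dg H U v := by
    intro v hv
    rw [dg_eq, dg_eq]
    congr 1
    ext w
    rw [mem_filter, mem_filter, hmemW]
    constructor
    · rintro ⟨⟨h1, _⟩, h2⟩; exact ⟨h1, h2⟩
    · rintro ⟨h1, h2⟩; exact ⟨⟨h1, dg_pos.2 ⟨v, hv, h2.symm⟩⟩, h2⟩
  have hesW : es H W = W.card * (2 * K) := by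
    unfold es
    rw [sum_congr rfl fun v hv => (hdW' v (hWU hv)).trans (hdW v hv), sum_const, smul_eq_mul]
  have hesU : es H U = W.card * (2 * K) := by
    unfold es
    rw [← sum_sdiff hWU, sum_congr rfl hdW, sum_const, smul_eq_mul]
    have h1 : ∑ v ∈ U \ W, dg H U v = 0 := by
      apply sum_eq_zero
      intro v hv
      rw [mem_sdiff, hmemW] at hv
      by_contra h
      exact hv.2 ⟨hv.1, by omega⟩
    omega
  have hWc : W.card = (2 * K + 1) * t := by
    have h1 : W.card * (2 * K) = (2 * K + 1) * t * (2 * K) := by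
      rw [← hesU, he, hmt]; ring
    exact Nat.eq_of_mul_eq_mul_right (by omega) h1
  by_cases hJ : ∃ J ⊆ W, Ind H J ∧ t + 1 ≤ J.card
  · left
    obtain ⟨J', hJ'W, hJ', hJ'c⟩ := hJ
    obtain ⟨J, _, hJJ', hJ, hJc⟩ := hJ'.exists_subset (empty_subset J')
      (by simp : (∅ : Finset V).card ≤ t + 1) hJ'c
    have hJW : J ⊆ W := hJJ'.trans hJ'W
    have htp : t + 1 ≤ p := by
      by_contra hlt
      have h1 : p ≤ t := by omega
      have h2 : K * p ≤ K * t := Nat.mul_le_mul_left _ h1
      have h3 : (K + 1) * p = K * p + p := by ring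
      have h4 : (2 * K + 1) * p = K * p + (K * p + p) := by ring
      omega
    -- the packing in `W \ J`
    have hP : Pack H (W \ J) K t := by
      apply star H K t (K * t) (W \ J).card (W \ J) rfl
      · have h1 := card_sdiff_add_card_eq_card hJW
        have h2 : (2 * K + 1) * t = K * t + K * t + t := by ring
        have h3 : 1 * 1 ≤ K * t := Nat.mul_le_mul hK ht1
        omega
      · have h1 := es_sdiff hJW hJ
        have h2 : ∑ x ∈ J, dg H W x = (t + 1) * (2 * K) := by
          rw [sum_congr rfl fun x hx => (hdW' x (hWU (hJW hx))).trans (hdW x (hJW hx)),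
            sum_const, smul_eq_mul, hJc]
        rw [h2, hesW, hWc] at h1
        obtain ⟨L, rfl⟩ : ∃ L, K = L + 1 := ⟨K - 1, by omega⟩
        have e2 : 2 * (L + 1) - 1 = 2 * L + 1 := by omega
        rw [e2]
        have h3 : (2 * (L + 1) + 1) * t * (2 * (L + 1)) =
            2 * (2 * L + 1) * ((L + 1) * t) + 2 * ((t + 1) * (2 * (L + 1))) - 4 * (L + 1) := by
          have h4 : (2 * (L + 1) + 1) * t * (2 * (L + 1)) + 4 * (L + 1) =
            2 * (2 * L + 1) * ((L + 1) * t) + 2 * ((t + 1) * (2 * (L + 1))) := by ring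
          omega
        have h5 : 4 * (L + 1) ≤ 2 * ((t + 1) * (2 * (L + 1))) := by nlinarith
        omega
    -- isolated vertices
    obtain ⟨Z, hZ⟩ : ∃ Z, Z = U \ W := ⟨_, rfl⟩
    have hZiso : ∀ z ∈ Z, ∀ w ∈ U, ¬ H.Adj z w := by
      intro z hz w hw h
      rw [hZ, mem_sdiff, hmemW] at hz
      exact hz.2 ⟨hz.1, dg_pos.2 ⟨w, hw, h⟩⟩
    have hZU : Z ⊆ U := hZ ▸ sdiff_subset
    have hZc : Z.card + 1 = (K + 1) * (p - t) := by
      have h1 := card_sdiff_add_card_eq_card hWU
      rw [← hZ] at h1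
      obtain ⟨s, rfl⟩ : ∃ s, p = t + s := ⟨p - t, by omega⟩
      rw [Nat.add_sub_cancel_left]
      have h2 : (K + 1) * (t + s) = (K + 1) * s + K * t + t := by ring
      have h3 : (2 * K + 1) * t = K * t + K * t + t := by ring
      omega
    obtain ⟨s, hs⟩ : ∃ s, p = t + (s + 1) := ⟨p - t - 1, by omega⟩
    have hs2 : p - t = s + 1 := by omega
    rw [hs2] at hZc
    have hZc2 : Z.card = K * (s + 1) + s := by
      have : (K + 1) * (s + 1) = K * (s + 1) + s + 1 := by ring
      omega
    obtain ⟨Z1, hZ1, hZ1c⟩ := exists_subset_card_eq (s := Z) (n := s) (by omega)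
    obtain ⟨Z2, hZ2⟩ : ∃ Z2, Z2 = Z \ Z1 := ⟨_, rfl⟩
    have hZ2c : Z2.card = K * (s + 1) := by
      have := card_sdiff_add_card_eq_card hZ1
      rw [hZ2]; omega
    have hWZ : Disjoint W Z := hZ ▸ disjoint_sdiff
    have hI : Ind H (J ∪ Z1) := by
      apply Ind.union hJ
      · intro a ha b hb
        exact hZiso a (hZ1 ha) b (hZU (hZ1 hb))
      · intro a ha b hb hab
        exact hZiso b (hZ1 hb) a (hWU (hJW ha)) hab.symm
    have hIc : (J ∪ Z1).card = p := by
      rw [card_union_of_disjoint, hJc, hZ1c]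
      · omega
      · exact disjoint_of_subset_left hJW (disjoint_of_subset_right hZ1 hWZ)
    have hIU : J ∪ Z1 ⊆ U := union_subset (hJW.trans hWU) (hZ1.trans hZU)
    apply Pack.succ hIU hIc hI
    have h2 := pack_add (Z := Z2) (s := s + 1) hP
      (disjoint_of_subset_left sdiff_subset
        (disjoint_of_subset_right (hZ2 ▸ sdiff_subset) hWZ))
      (by
        intro z hz w hw
        have hz' : z ∈ Z := (hZ2 ▸ sdiff_subset : Z2 ⊆ Z) hz
        refine hZiso z hz' w ?_
        rcases mem_union.1 hw with h | h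
        · exact hWU (sdiff_subset h)
        · exact hZU ((hZ2 ▸ sdiff_subset : Z2 ⊆ Z) h))
      (by omega)
    rw [← hs] at h2
    refine h2.mono ?_
    intro v hv
    rw [mem_sdiff, mem_union]
    rcases mem_union.1 hv with h | h
    · obtain ⟨h3, h4⟩ := mem_sdiff.1 h
      refine ⟨hWU h3, ?_⟩
      rintro (h5 | h5)
      · exact h4 h5
      · exact (disjoint_left.1 hWZ) h3 (hZ1 h5)
    · rw [hZ2, mem_sdiff] at h
      refine ⟨hZU h.1, ?_⟩
      rintro (h5 | h5)
      · exact (disjoint_left.1 hWZ) (hJW h5) h.1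
      · exact h.2 h5
  · right
    push Not at hJ
    refine ⟨he, t, ?_, ?_, ?_, ?_⟩
    · rw [hmt]; rfl
    · rw [← hW, hWc]
    · exact hdeg
    · intro x hx y hy z hz hxy hxz hyz
      by_contra hnadj
      have hxW : x ∈ W := (hmemW x).2 ⟨hx, dg_pos.2 ⟨y, hy, hxy⟩⟩
      have hyW : y ∈ W := (hmemW y).2 ⟨hy, dg_pos.2 ⟨x, hx, hxy.symm⟩⟩
      have hzW : z ∈ W := (hmemW z).2 ⟨hz, dg_pos.2 ⟨x, hx, hxz.symm⟩⟩
      have hyz' : Ind H {y, z} := by
        intro a ha b hb
        rw [mem_insert, mem_singleton] at ha hb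
        rcases ha with rfl | rfl <;> rcases hb with rfl | rfl
        · exact H.irrefl
        · exact hnadj
        · exact fun h => hnadj h.symm
        · exact H.irrefl
      obtain ⟨M, hM1, hM2⟩ := exists_maxInd (U := W)
        (by
          intro a ha
          rw [mem_insert, mem_singleton] at ha
          rcases ha with rfl | rfl
          · exact hyW
          · exact hzW) hyz'
      have h1 := count_max (r := 2 * K + 1) hM2 (by
        intro v hv
        rw [hdW' v (hWU hv), hdW v hv])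
      have h2 := hJ M hM2.1 hM2.2.1
      have hyM : y ∈ M := hM1 (mem_insert_self _ _)
      have hzM : z ∈ M := hM1 (mem_insert_of_mem (mem_singleton_self _))
      have h3 : x ∈ (W \ M).filter (fun v => 2 ≤ dg H M v) := by
        rw [mem_filter, mem_sdiff]
        refine ⟨⟨hxW, fun h => hM2.2.1 x h y hyM hxy⟩, ?_⟩
        rw [dg_eq]
        have h4 : ({y, z} : Finset V) ⊆ M.filter (fun w => H.Adj x w) := by
          intro a ha
          rw [mem_insert, mem_singleton] at ha
          rw [mem_filter]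
          rcases ha with rfl | rfl
          · exact ⟨hyM, hxy⟩
          · exact ⟨hzM, hxz⟩
        have h5 := card_le_card h4
        rwa [card_pair hyz] at h5
      have h4 := card_pos.2 ⟨x, h3⟩
      have h5 : (2 * K + 1) * M.card ≤ (2 * K + 1) * t := Nat.mul_le_mul_left _ (by omega)
      omega

end Pool.Agent.Q126.KE
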